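import Pool.Agent.Y990.OA.Stm

set_option autoImplicit false

open MeasureTheory Set

/-!
Connection along a chain of boxes (project OA of helper990, job OA-CHAIN).
-/

namespace Pool.Agent.Y737.OA

open Pool.Agent.Y990.CB
open Pool.Agent.Y990.OA

/-- The probability of a hole is the same around every vertex. -/
lemma hol_shift {d : ℕ} (M : Mod d) (p : unitInterval) (w : Z d) (k n : ℕ) :
    (mu M p).real {ω | ω ∉ Lk M (Bo (0 + w) n) (Bo (0 + w) k) (Fr (0 + w) n)} =
      hol M p k n := by
  unfold hol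
  rw [← mu_inv_real M p (sf w)
    (A := {ω | ω ∉ Lk M (Bo 0 n) (Bo 0 k) (Fr 0 n)}) (Lk_meas M _ _ _).compl]
  congr 1
  ext ω
  simp only [mem_ofPred_eq]
  refine not_congr ⟨?_, ?_⟩
  · rintro ⟨x, hx, y, hy, h⟩
    have ex : x - w + w = x := sub_add_cancel x w
    have ey : sf w (y - w) = y := sub_add_cancel y w
    have ex' : sf w (x - w) = x := ex
    refine ⟨x - w, ?_, y - w, ?_, ?_⟩
    · rw [← ex] at hx; exact mem_Bo_add.1 hx
    · rw [← ey] at hy; exact sf_Fr.1 hy
    · rw [reach_sym M (sf w) (Nb_sf w) ω, sf_image_Bo, ey, ex']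
      exact h
  · rintro ⟨x, hx, y, hy, h⟩
    refine ⟨sf w x, mem_Bo_add.2 hx, sf w y, sf_Fr.2 hy, ?_⟩
    rw [← sf_image_Bo]
    exact (reach_sym M (sf w) (Nb_sf w) ω _ x y).1 h

lemma single_mem {d : ℕ} (i : Fin d) (j : ℕ) :
    (Pi.single i (j : ℤ) : Z d) ∈ Bo (0 : Z d) j := by
  intro i'
  by_cases h : i' = i
  · subst h
    simp
  · simp [h]

lemma single_succ {d : ℕ} (i : Fin d) (j : ℕ) (i' : Fin d) :
    |(Pi.single i ((j + 1 : ℕ) : ℤ) : Z d) i' - (Pi.single i (j : ℤ) : Z d) i'| ≤ 1 := by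
  by_cases h : i' = i
  · subst h
    simp
  · simp [h]

theorem chain : S_chain := by
  intro d M p i k N l hkl hlN
  set z : ℕ → Z d := fun j => Pi.single i (j : ℤ) with hz
  set H : ℕ → Set (M.ι → Bool) := fun j =>
    {ω | ω ∉ Lk M (Bo (0 + z j) (l + 1)) (Bo (0 + z j) k) (Fr (0 + z j) (l + 1))} with hH
  set T : ℕ → Set (M.ι → Bool) := fun j => Ta M (0 + z j) (k + 1) l with hT
  have hsub : {ω | ω ∉ Lk M (Bo 0 (2 * N)) (Bo 0 k) (Bo (Pi.single i (N : ℤ)) k)} ⊆
      (⋃ j ∈ Finset.range (N + 1), H j) ∪ ⋃ j ∈ Finset.range N, T j := by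
    intro ω hω
    by_contra hcon
    apply hω
    simp only [mem_union, mem_iUnion, Finset.mem_range, exists_prop, not_or, not_exists,
      not_and] at hcon
    obtain ⟨h1, h2⟩ := hcon
    have h3 : ∀ j, j < N + 1 → ∃ x ∈ Bo (z j) k, ∃ y ∈ Fr (z j) (l + 1),
        (G M ω (Bo (z j) (l + 1))).Reachable x y := by
      intro j hj
      have := h1 j hj
      simp only [hH, zero_add, mem_ofPred_eq, not_not] at this
      exact this
    have h3' : ∀ j, ∃ x : Z d, j < N + 1 → x ∈ Bo (z j) k ∧ ∃ y ∈ Fr (z j) (l + 1),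
        (G M ω (Bo (z j) (l + 1))).Reachable x y := by
      intro j
      by_cases hj : j < N + 1
      · obtain ⟨x, hx, y, hy, h⟩ := h3 j hj
        exact ⟨x, fun _ => ⟨hx, y, hy, h⟩⟩
      · exact ⟨0, fun h => absurd h hj⟩
    choose x hx using h3'
    have hstep : ∀ j, j < N → (G M ω (Bo 0 (2 * N))).Reachable (x j) (x (j + 1)) := by
      intro j hj
      obtain ⟨a1, y, a2, a3⟩ := hx j (by omega)
      obtain ⟨b1, y', b2, b3⟩ := hx (j + 1) (by omega)
      have hzz : z (j + 1) ∈ Bo (z j) 1 := by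
        intro i'
        exact_mod_cast single_succ i j i'
      have c1 : x j ∈ Bo (z j) (k + 1) := Bo_mono _ (by omega) a1
      have c2 : x (j + 1) ∈ Bo (z j) (k + 1) := Bo_sub hzz le_rfl b1
      have d1 : Am M ω (z j) l (x j) := by
        refine exit_Am (Bo_mono _ hkl c1) (Or.inl ?_) a3
        intro hy
        obtain ⟨i', hi'⟩ := a2.2
        have := hy i'
        push_cast at hi'
        omega
      have d2 : Am M ω (z j) l (x (j + 1)) := by
        refine exit_Am (Bo_mono _ hkl c2) ?_ b3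
        by_cases hy : y' ∈ Bo (z j) l
        · refine Or.inr ⟨hy, ?_⟩
          obtain ⟨i', hi'⟩ := b2.2
          refine ⟨i', le_antisymm (hy i') ?_⟩
          have e1 := hzz i'
          have e2 := abs_sub_le (y' i') (z j i') (z (j + 1) i')
          rw [abs_sub_comm (z j i')] at e2
          push_cast at hi' e1
          omega
        · exact Or.inl hy
      have e : (G M ω (Bo (z j) l)).Reachable (x j) (x (j + 1)) := by
        by_contra hne
        apply h2 j hj
        simp only [hT, zero_add]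
        exact ⟨x j, c1, x (j + 1), c2, d1, d2, hne⟩
      refine reach_mono ?_ e
      exact Bo_sub (D := j) (single_mem i j) (by omega)
    have hall : ∀ j, j ≤ N → (G M ω (Bo 0 (2 * N))).Reachable (x 0) (x j) := by
      intro j
      induction j with
      | zero => exact fun _ => SimpleGraph.Reachable.refl _
      | succ j ih => exact fun hj => (ih (by omega)).trans (hstep j (by omega))
    refine ⟨x 0, ?_, x N, (hx N (by omega)).1, hall N le_rfl⟩
    have := (hx 0 (by omega)).1
    simpa [hz] using this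
  have hHm : ∀ j, (mu M p).real (H j) = hol M p k (l + 1) := fun j => hol_shift M p (z j) k (l + 1)
  have hTm : ∀ j, (mu M p).real (T j) = (mu M p).real (Ta M 0 (k + 1) l) := fun j =>
    Ta_shift M p 0 (z j) (k + 1) l
  calc (mu M p).real {ω | ω ∉ Lk M (Bo 0 (2 * N)) (Bo 0 k) (Bo (Pi.single i (N : ℤ)) k)}
      ≤ (mu M p).real ((⋃ j ∈ Finset.range (N + 1), H j) ∪ ⋃ j ∈ Finset.range N, T j) :=
        measureReal_mono hsub
    _ ≤ (mu M p).real (⋃ j ∈ Finset.range (N + 1), H j) +
        (mu M p).real (⋃ j ∈ Finset.range N, T j) := measureReal_union_le _ _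
    _ ≤ ∑ j ∈ Finset.range (N + 1), (mu M p).real (H j) +
        ∑ j ∈ Finset.range N, (mu M p).real (T j) :=
        add_le_add (measureReal_biUnion_finset_le _ _) (measureReal_biUnion_finset_le _ _)
    _ = (N + 1) * hol M p k (l + 1) + N * (mu M p).real (Ta M 0 (k + 1) l) := by
        simp [hHm, hTm]

end Pool.Agent.Y737.OA
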